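import Mathlib
import Pool.Agent.W171.EP.IntRange
import Pool.Agent.W171.EP.GridL
import Pool.Agent.W171.EP.Transfer
import Pool.Agent.H771R4.SE.Datum

set_option autoImplicit false

/-! # The density of Q1 for almost all integers, at every `x` from a constant up to `exp (N ^ b)`

For an integer `n'` let `δ(n') = (1 - μ(|n'|) ∏_{p ∣ n'} 1 / (p ^ 2 - p - 1)) A`, with Artin's constant
`A`, and let `P(n, x)` be the number of primes `p ≤ x` modulo which `n` is a primitive root.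
For every `η > 0` there is `b > 0` such that for every `ε > 0` there is `X` with the following
property: for all large `N`, all but at most `η N` of the integers `n` with `|n| ≤ N` satisfy: if the
squarefree part `n'` of `n` is `1 mod 4`, then `|P(n, x) - δ(n') π(x)| ≤ ε π(x)` for EVERY `x` with
`X ≤ x ≤ exp (N ^ b)`.

Libraries: helper730 (large sieve for `x ≤ exp ((log N) ^ 2 / (64 log log N))`), helper386 (large sieve
for sets of primes), helper771 (local counts, main term). -/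

namespace Pool.Agent.Results.MP_991e92_nt.AlmostAllIntegers

open Finset Filter Classical
open Pool.Agent.W171.EP (badR transfer badAllL lowL badI intRange)
open Pool.Agent.H771R4.SE (cntE dLin)

/-- the number of primes `p ≤ x` modulo which `n` is a primitive root -/
noncomputable def P (n : ℤ) (x : ℕ) : ℕ :=
  ((Finset.range (x + 1)).filter (fun p : ℕ => p.Prime ∧ orderOf (n : ZMod p) = p - 1)).card

/-- the density of Q1 for integers with squarefree part `D`: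
`(1 - μ(|D|) ∏_{q ∣ D} 1 / (q² - q - 1)) ∏_p (1 - 1 / (p (p - 1)))` -/
noncomputable def δ (D : ℤ) : ℝ :=
  (1 - ((ArithmeticFunction.moebius D.natAbs : ℤ) : ℝ) *
      ∏ q ∈ D.natAbs.primeFactors, (1 / ((q : ℝ) ^ 2 - (q : ℝ) - 1))) *
    ∏' p : Nat.Primes, (1 - 1 / (((p : ℕ) : ℝ) * (((p : ℕ) : ℝ) - 1)))

lemma ev_range : ∀ᶠ N : ℕ in atTop, (Real.log N) ^ (1 + (1 / 2 : ℝ)) ≤
    (Real.log N) ^ 2 / (64 * Real.log (Real.log N)) := by
  have h1 : ∀ᶠ l : ℝ in atTop, l ^ (1 + (1 / 2 : ℝ)) ≤ l ^ 2 / (64 * Real.log l) := by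
    have h := (isLittleO_log_rpow_atTop (r := 1 / 2) (by norm_num)).bound (c := 1 / 64)
      (by norm_num)
    filter_upwards [h, eventually_gt_atTop 1] with l hl hl1
    have hl0 : 0 < l := by linarith
    have hlog : 0 < Real.log l := Real.log_pos hl1
    rw [Real.norm_of_nonneg hlog.le, Real.norm_of_nonneg (by positivity)] at hl
    rw [le_div_iff₀ (by positivity)]
    have h2 : l ^ 2 = l ^ (1 + (1 / 2 : ℝ)) * l ^ (1 / 2 : ℝ) := by
      rw [← Real.rpow_add hl0, ← Real.rpow_natCast]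
      norm_num
    rw [h2]
    have h3 : 0 < l ^ (1 + (1 / 2 : ℝ)) := by positivity
    gcongr
    linarith
  exact (Real.tendsto_log_atTop.comp tendsto_natCast_atTop_atTop).eventually h1

lemma ev_sqrt (K : ℕ) (η : ℝ) (hη : 0 < η) : ∀ᶠ N : ℕ in atTop,
    (2 * (K : ℝ) + 1) * ((Nat.sqrt N : ℝ) + 1) ≤ η * N := by
  have h1 : ∀ᶠ N : ℕ in atTop, 2 * (2 * (K : ℝ) + 1) / η ≤ √(N : ℝ) :=
    (Real.tendsto_sqrt_atTop.comp tendsto_natCast_atTop_atTop).eventually_ge_atTop _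
  filter_upwards [h1, eventually_ge_atTop 1] with N h1 h2
  have hN : (1 : ℝ) ≤ N := by exact_mod_cast h2
  rw [div_le_iff₀ hη] at h1
  have h3 : (Nat.sqrt N : ℝ) ≤ √(N : ℝ) := Real.nat_sqrt_le_real_sqrt
  have h4 : 1 ≤ √(N : ℝ) := Real.one_le_sqrt.2 hN
  have h5 : √(N : ℝ) * √(N : ℝ) = N := Real.mul_self_sqrt (by linarith)
  calc (2 * (K : ℝ) + 1) * ((Nat.sqrt N : ℝ) + 1)
      ≤ (2 * (K : ℝ) + 1) * (√(N : ℝ) + √(N : ℝ)) := by gcongr
    _ = (2 * (2 * (K : ℝ) + 1)) * √(N : ℝ) := by ring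
    _ ≤ (√(N : ℝ) * η) * √(N : ℝ) := by gcongr
    _ = η * (√(N : ℝ) * √(N : ℝ)) := by ring
    _ = η * N := by rw [h5]

/-- one sign -/
lemma one_sign (s : ℤ) (hs : s ≠ 0) (η b : ℝ) (hη : 0 < η)
    (hI : ∀ (d : Pool.Agent.H771R4.SE.Dat) (ε : ℝ), 0 < ε → ∃ N₀ : ℕ, ∀ N : ℕ, N₀ ≤ N →
      (#(badI d ε (1 / 2) b N) : ℝ) ≤ η * N) (ε : ℝ) (hε : 0 < ε) :
    ∃ X N₀ : ℕ, ∀ Y : ℕ, X ≤ Y → ∀ N : ℕ, N₀ ≤ N →
      (#(badR (fun N x => Y ≤ x ∧ (x : ℝ) ≤ Real.exp ((N : ℝ) ^ b)) s ε N) : ℝ) ≤ 2 * η * N := by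
  obtain ⟨X, hX⟩ := lowL s hs ε η hε hη
  obtain ⟨N₁, hN₁⟩ := hI (dLin s hs) ε hε
  obtain ⟨N₂, hN₂⟩ := eventually_atTop.1 (hX.and ev_range)
  refine ⟨max X 1, max N₁ N₂, fun Y hY N hN => ?_⟩
  have h1 := hN₁ N ((le_max_left _ _).trans hN)
  obtain ⟨h2, h3⟩ := hN₂ N ((le_max_right _ _).trans hN)
  have hsub : badR (fun N x => Y ≤ x ∧ (x : ℝ) ≤ Real.exp ((N : ℝ) ^ b)) s ε N ⊆
      badAllL s ε X (Real.exp ((Real.log N) ^ 2 / (64 * Real.log (Real.log N)))) N ∪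
      badI (dLin s hs) ε (1 / 2) b N := by
    intro m hm
    unfold badR at hm
    rw [mem_filter] at hm
    obtain ⟨hmI, x, ⟨hxX, hxb⟩, hx⟩ := hm
    have hx0 : (0 : ℝ) < x := by
      have : 1 ≤ x := (le_max_right _ _).trans (hY.trans hxX)
      exact_mod_cast this
    rw [mem_union]
    by_cases hc : Real.log x ≤ (Real.log N) ^ (1 + (1 / 2 : ℝ))
    · left
      unfold badAllL
      rw [mem_filter]
      refine ⟨hmI, x, (le_max_left _ _).trans (hY.trans hxX), ?_, hx⟩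
      rw [← Real.log_le_iff_le_exp hx0]
      exact hc.trans h3
    · right
      push Not at hc
      unfold badI
      rw [mem_filter]
      refine ⟨hmI, x, hc.le, ?_, ?_⟩
      · rw [Real.log_le_iff_le_exp hx0]
        exact hxb
      · have e : Pool.Agent.H730R2.AA.cnt (s * (m : ℤ)) x = cntE (dLin s hs) m x := by
          unfold Pool.Agent.H730R2.AA.cnt cntE
          apply congrArg Finset.card
          apply Finset.filter_congr_decidable _ _ _ |>.symm.trans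
          apply Finset.filter_congr
          intro p _
          simp only [dLin, Int.cast_mul, Int.cast_natCast]
        have e2 : (dLin s hs).A = Pool.Agent.H386R2.Artin.artinC := rfl
        rw [← e, e2]
        exact hx
  have h4 := (card_le_card hsub).trans (card_union_le _ _)
  have h5 : (#(badR (fun N x => Y ≤ x ∧ (x : ℝ) ≤ Real.exp ((N : ℝ) ^ b)) s ε N) : ℝ) ≤
      (#(badAllL s ε X (Real.exp ((Real.log N) ^ 2 / (64 * Real.log (Real.log N)))) N) : ℝ) +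
      (#(badI (dLin s hs) ε (1 / 2) b N) : ℝ) := by
    exact_mod_cast h4
  linarith

theorem result (η : ℝ) (hη : 0 < η) :
    ∃ b : ℝ, 0 < b ∧ ∀ ε : ℝ, 0 < ε → ∃ X N₀ : ℕ, ∀ N : ℕ, N₀ ≤ N →
      (((Finset.Icc (-(N : ℤ)) N).filter (fun n : ℤ => ∃ n' : ℤ, Squarefree n' ∧ n' % 4 = 1 ∧
        (∃ k : ℤ, k ≠ 0 ∧ n = n' * k ^ 2) ∧
        ∃ x : ℕ, (X ≤ x ∧ (x : ℝ) ≤ Real.exp ((N : ℝ) ^ b)) ∧
          ε * (Nat.primeCounting x : ℝ) <
            |(P n x : ℝ) - δ n' * (Nat.primeCounting x : ℝ)|)).card : ℝ) ≤ η * N := by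
  obtain ⟨b, hb, hI⟩ := intRange (1 / 2) (by norm_num) (η / 8) (by positivity)
  refine ⟨b, hb, fun ε hε => ?_⟩
  obtain ⟨X₁, N₁, h1⟩ := one_sign 1 one_ne_zero (η / 8) b (by positivity) hI (ε / 2) (by positivity)
  obtain ⟨X₂, N₂, h2⟩ := one_sign (-1) (by norm_num) (η / 8) b (by positivity) hI (ε / 2)
    (by positivity)
  obtain ⟨K, hK⟩ := transfer
    (fun N x => max X₁ X₂ ≤ x ∧ (x : ℝ) ≤ Real.exp ((N : ℝ) ^ b)) ε hε
  obtain ⟨N₃, h3⟩ := eventually_atTop.1 (ev_sqrt K (η / 2) (by positivity))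
  refine ⟨max X₁ X₂, max (max N₁ N₂) N₃, fun N hN => ?_⟩
  have k1 := h1 (max X₁ X₂) (le_max_left _ _) N ((le_max_left _ _).trans ((le_max_left _ _).trans hN))
  have k2 := h2 (max X₁ X₂) (le_max_right _ _) N
    ((le_max_right _ _).trans ((le_max_left _ _).trans hN))
  have k3 := h3 N ((le_max_right _ _).trans hN)
  have k4 := hK N
  have e : ((Finset.Icc (-(N : ℤ)) N).filter (fun n : ℤ => ∃ n' : ℤ, Squarefree n' ∧ n' % 4 = 1 ∧
        (∃ k : ℤ, k ≠ 0 ∧ n = n' * k ^ 2) ∧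
        ∃ x : ℕ, (max X₁ X₂ ≤ x ∧ (x : ℝ) ≤ Real.exp ((N : ℝ) ^ b)) ∧
          ε * (Nat.primeCounting x : ℝ) <
            |(P n x : ℝ) - δ n' * (Nat.primeCounting x : ℝ)|)).card =
      ((Finset.Icc (-(N : ℤ)) N).filter (fun n : ℤ => ∃ n' : ℤ, Squarefree n' ∧ n' % 4 = 1 ∧
        (∃ k : ℤ, k ≠ 0 ∧ n = n' * k ^ 2) ∧
        ∃ x : ℕ, (max X₁ X₂ ≤ x ∧ (x : ℝ) ≤ Real.exp ((N : ℝ) ^ b)) ∧
          ε * (Nat.primeCounting x : ℝ) <
            |(Pool.Agent.H730R2.AA.cnt n x : ℝ) -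
              Pool.Agent.W171.EP.dl n' * (Nat.primeCounting x : ℝ)|)).card := rfl
  rw [e]
  linarith

end Pool.Agent.Results.MP_991e92_nt.AlmostAllIntegers
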