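import Mathlib
import Pool.Agent.W171.EP.IntRange
import Pool.Agent.H771R4.SE.Datum
import Pool.Agent.H730R2.AA.Grid
import Pool.Agent.H730R2.AA.OneX
import Pool.Agent.H730R2.AA.MainTerm

set_option autoImplicit false

/-! # The corrected density for almost all integers with a given squarefree part, at every `x` from a
constant up to the exponential of a power

Let `D ≠ 1` be a squarefree integer, `D ≡ 1 mod 4`; the integers with squarefree part `D` are the
numbers `D m ^ 2`.  Let `δ(D) = (1 - μ(|D|) ∏_{q ∣ D} 1 / (q ^ 2 - q - 1)) A`, where `A` is Artin's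
constant, and let `P(n, x)` be the number of primes `p ≤ x` modulo which `n` is a primitive root.
For every `η > 0` there is `b > 0` such that for all `D` and `ε > 0` there is `X` with the following
property: for all large `N`, all but at most `η N` of the `m ≤ N` satisfy
`|P(D m ^ 2, x) - δ(D) π(x)| ≤ ε π(x)` for EVERY `x` with `X ≤ x ≤ exp (N ^ b)`.

Libraries: helper730 (main term, large sieve for `x ≤ exp ((log N) ^ 2 / (64 log log N))`), helper386
(large sieve for sets of primes), helper771 (local counts). -/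

namespace Pool.Agent.Results.MP_991e92_nt.ExponentialRange

open Finset Filter Classical

/-- the number of primes `p ≤ x` modulo which `n` is a primitive root -/
noncomputable def P (n : ℤ) (x : ℕ) : ℕ :=
  ((Finset.range (x + 1)).filter (fun p : ℕ => p.Prime ∧ orderOf (n : ZMod p) = p - 1)).card

/-- the density of Q1 for integers with squarefree part `D`:
`(1 - μ(|D|) ∏_{q ∣ D} 1 / (q² - q - 1)) ∏_p (1 - 1 / (p (p - 1)))` -/
noncomputable def δ (D : ℤ) : ℝ :=
  (1 - ((ArithmeticFunction.moebius D.natAbs : ℤ) : ℝ) *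
      ∏ q ∈ D.natAbs.primeFactors, (1 / ((q : ℝ) ^ 2 - (q : ℝ) - 1))) *
    ∏' p : Nat.Primes, (1 - 1 / (((p : ℕ) : ℝ) * (((p : ℕ) : ℝ) - 1)))

lemma ev_range : ∀ᶠ N : ℕ in atTop, (Real.log N) ^ (1 + (1 / 2 : ℝ)) ≤
    (Real.log N) ^ 2 / (64 * Real.log (Real.log N)) := by
  have h1 : ∀ᶠ l : ℝ in atTop, l ^ (1 + (1 / 2 : ℝ)) ≤ l ^ 2 / (64 * Real.log l) := by
    have h := (isLittleO_log_rpow_atTop (r := 1 / 2) (by norm_num)).bound (c := 1 / 64)
      (by norm_num)
    filter_upwards [h, eventually_gt_atTop 1] with l hl hl1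
    have hl0 : 0 < l := by linarith
    have hlog : 0 < Real.log l := Real.log_pos hl1
    rw [Real.norm_of_nonneg hlog.le, Real.norm_of_nonneg (by positivity)] at hl
    rw [le_div_iff₀ (by positivity)]
    have h2 : l ^ 2 = l ^ (1 + (1 / 2 : ℝ)) * l ^ (1 / 2 : ℝ) := by
      rw [← Real.rpow_add hl0, ← Real.rpow_natCast]
      norm_num
    rw [h2]
    have h3 : 0 < l ^ (1 + (1 / 2 : ℝ)) := by positivity
    gcongr
    linarith
  exact (Real.tendsto_log_atTop.comp tendsto_natCast_atTop_atTop).eventually h1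

theorem result (η : ℝ) (hη : 0 < η) :
    ∃ b : ℝ, 0 < b ∧ ∀ D : ℤ, Squarefree D → D % 4 = 1 → D ≠ 1 → ∀ ε : ℝ, 0 < ε →
    ∃ X N₀ : ℕ, ∀ N : ℕ, N₀ ≤ N →
      (((Finset.Icc 1 N).filter (fun m : ℕ => ∃ x : ℕ, X ≤ x ∧
        (x : ℝ) ≤ Real.exp ((N : ℝ) ^ b) ∧
        ε * (Nat.primeCounting x : ℝ) <
          |(P (D * (m : ℤ) ^ 2) x : ℝ) - δ D * (Nat.primeCounting x : ℝ)|)).card : ℝ) ≤
        η * N := by
  obtain ⟨b, hb, hI⟩ := Pool.Agent.W171.EP.intRange (1 / 2) (by norm_num) (η / 2) (by positivity)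
  refine ⟨b, hb, fun D hD hD4 hD1 ε hε => ?_⟩
  obtain ⟨X, hX⟩ := Pool.Agent.H730R2.AA.all_x_of D ε (η / 2) hε (by positivity)
    (Pool.Agent.H730R2.AA.main_lim D hD hD4 hD1)
    (fun ε' hε' => Pool.Agent.H730R2.AA.one_x D hD.ne_zero ε' hε')
  obtain ⟨N₁, hN₁⟩ := hI (Pool.Agent.H771R4.SE.dSq D hD hD4 hD1) ε hε
  obtain ⟨N₂, hN₂⟩ := eventually_atTop.1 (hX.and ev_range)
  refine ⟨max X 1, max N₁ N₂, fun N hN => ?_⟩
  have h1 := hN₁ N ((le_max_left _ _).trans hN)
  obtain ⟨h2, h3⟩ := hN₂ N ((le_max_right _ _).trans hN)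
  have hsub : ((Finset.Icc 1 N).filter (fun m : ℕ => ∃ x : ℕ, max X 1 ≤ x ∧
        (x : ℝ) ≤ Real.exp ((N : ℝ) ^ b) ∧
        ε * (Nat.primeCounting x : ℝ) <
          |(P (D * (m : ℤ) ^ 2) x : ℝ) - δ D * (Nat.primeCounting x : ℝ)|)) ⊆
      Pool.Agent.H730R2.AA.badAll D ε X
        (Real.exp ((Real.log N) ^ 2 / (64 * Real.log (Real.log N)))) N ∪
      Pool.Agent.W171.EP.badI (Pool.Agent.H771R4.SE.dSq D hD hD4 hD1) ε (1 / 2) b N := by
    intro m hm
    rw [mem_filter] at hm
    obtain ⟨hmI, x, hxX, hxb, hx⟩ := hm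
    have hx0 : (0 : ℝ) < x := by
      have : 1 ≤ x := (le_max_right _ _).trans hxX
      exact_mod_cast this
    rw [mem_union]
    by_cases hc : Real.log x ≤ (Real.log N) ^ (1 + (1 / 2 : ℝ))
    · left
      unfold Pool.Agent.H730R2.AA.badAll
      rw [mem_filter]
      refine ⟨hmI, x, (le_max_left _ _).trans hxX, ?_, ?_⟩
      · rw [← Real.log_le_iff_le_exp hx0]
        exact hc.trans h3
      · unfold Pool.Agent.H730R2.AA.cnt Pool.Agent.H730R2.AA.dens
        unfold P δ at hx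
        exact hx
    · right
      push Not at hc
      unfold Pool.Agent.W171.EP.badI
      rw [mem_filter]
      refine ⟨hmI, x, hc.le, ?_, ?_⟩
      · rw [Real.log_le_iff_le_exp hx0]
        exact hxb
      · have e : P (D * (m : ℤ) ^ 2) x =
            Pool.Agent.H771R4.SE.cntE (Pool.Agent.H771R4.SE.dSq D hD hD4 hD1) m x := by
          unfold P Pool.Agent.H771R4.SE.cntE
          apply congrArg Finset.card
          apply Finset.filter_congr_decidable _ _ _ |>.symm.trans
          apply Finset.filter_congr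
          intro p _
          simp only [Pool.Agent.H771R4.SE.dSq, Int.cast_mul, Int.cast_pow, Int.cast_natCast]
        have e2 : δ D = (Pool.Agent.H771R4.SE.dSq D hD hD4 hD1).A := by
          simp only [Pool.Agent.H771R4.SE.dSq, Pool.Agent.H730R2.AA.dens, δ]
        rw [e, e2] at hx
        exact hx
  have h4 := (card_le_card hsub).trans (card_union_le _ _)
  have h5 : (((Finset.Icc 1 N).filter (fun m : ℕ => ∃ x : ℕ, max X 1 ≤ x ∧
        (x : ℝ) ≤ Real.exp ((N : ℝ) ^ b) ∧
        ε * (Nat.primeCounting x : ℝ) <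
          |(P (D * (m : ℤ) ^ 2) x : ℝ) - δ D * (Nat.primeCounting x : ℝ)|)).card : ℝ) ≤
      ((Pool.Agent.H730R2.AA.badAll D ε X
        (Real.exp ((Real.log N) ^ 2 / (64 * Real.log (Real.log N)))) N).card : ℝ) +
      ((Pool.Agent.W171.EP.badI (Pool.Agent.H771R4.SE.dSq D hD hD4 hD1) ε (1 / 2) b N).card : ℝ) := by
    exact_mod_cast h4
  linarith

end Pool.Agent.Results.MP_991e92_nt.ExponentialRange
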