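import Mathlib
import Pool.Agent.W171.EP.PowerSave

set_option autoImplicit false

/-! # The density of Q1 with few exceptions, at every `x` with `N ^ (1 / K) ≤ x ≤ exp ((log N) ^ K)`

For an integer `n'` let `δ(n') = (1 - μ(|n'|) ∏_{p ∣ n'} 1 / (p ^ 2 - p - 1)) A`, with Artin's constant
`A`, and let `P(n, x)` be the number of primes `p ≤ x` modulo which `n` is a primitive root.
For all `K ≥ 1` and `ε > 0` and all large `N`, all but at most `N ^ (1 - 1 / (1000 K))` of the integers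
`n` with `|n| ≤ N` satisfy: if the squarefree part `n'` of `n` is `1 mod 4`, then
`|P(n, x) - δ(n') π(x)| ≤ ε π(x)` for EVERY `x` with `N ^ (1 / K) ≤ x ≤ exp ((log N) ^ K)`.

Libraries: helper730 (large sieve), helper386 and helper771 (local counts, main term). -/

namespace Pool.Agent.Results.MP_991e92_nt.PowerSaving

open Finset Filter Classical
open Pool.Agent.W171.EP (badR transfer lowPow highPow)

/-- the number of primes `p ≤ x` modulo which `n` is a primitive root -/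
noncomputable def P (n : ℤ) (x : ℕ) : ℕ :=
  ((Finset.range (x + 1)).filter (fun p : ℕ => p.Prime ∧ orderOf (n : ZMod p) = p - 1)).card

/-- the density of Q1 for integers with squarefree part `D`:
`(1 - μ(|D|) ∏_{q ∣ D} 1 / (q² - q - 1)) ∏_p (1 - 1 / (p (p - 1)))` -/
noncomputable def δ (D : ℤ) : ℝ :=
  (1 - ((ArithmeticFunction.moebius D.natAbs : ℤ) : ℝ) *
      ∏ q ∈ D.natAbs.primeFactors, (1 / ((q : ℝ) ^ 2 - (q : ℝ) - 1))) *
    ∏' p : Nat.Primes, (1 - 1 / (((p : ℕ) : ℝ) * (((p : ℕ) : ℝ) - 1)))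

/-- the growth condition -/
lemma ev_fin (C : ℕ) (K : ℝ) (hK : 1 ≤ K) : ∀ᶠ N : ℕ in atTop,
    2 * ((N : ℝ) ^ (1 - 1 / (400 * K)) +
      ((N : ℝ) ^ (1 - 1 / (800 * K)) + 2 * (N : ℝ) ^ (19 / 20 : ℝ))) +
      (2 * (C : ℝ) + 1) * ((Nat.sqrt N : ℝ) + 1) ≤ (N : ℝ) ^ (1 - 1 / (1000 * K)) := by
  have h1 : ∀ᶠ N : ℕ in atTop, 8 + (4 * (C : ℝ) + 2) ≤ (N : ℝ) ^ (1 / (4000 * K)) :=
    ((tendsto_rpow_atTop (show 0 < 1 / (4000 * K) by positivity)).comp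
      (tendsto_natCast_atTop_atTop (R := ℝ))).eventually_ge_atTop _
  filter_upwards [h1, eventually_ge_atTop 1] with N h1 h2
  have hN : (1 : ℝ) ≤ N := by exact_mod_cast h2
  have hN0 : (0 : ℝ) < N := by linarith
  set V : ℝ := (N : ℝ) ^ (1 - 1 / (800 * K)) with hV
  have hV0 : 0 < V := by positivity
  have hs : 0 < 1 / (800 * K) := by positivity
  have hs1 : 1 / (800 * K) ≤ 1 / 800 := by
    apply one_div_le_one_div_of_le (by norm_num)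
    linarith
  have k1 : (N : ℝ) ^ (1 - 1 / (400 * K)) ≤ V := by
    apply Real.rpow_le_rpow_of_exponent_le hN
    have : 1 / (400 * K) = 2 * (1 / (800 * K)) := by field_simp; norm_num
    linarith
  have k2 : (N : ℝ) ^ (19 / 20 : ℝ) ≤ V := by
    apply Real.rpow_le_rpow_of_exponent_le hN
    linarith
  have k3 : (Nat.sqrt N : ℝ) ≤ V := by
    calc (Nat.sqrt N : ℝ) ≤ √(N : ℝ) := Real.nat_sqrt_le_real_sqrt
      _ = (N : ℝ) ^ (1 / 2 : ℝ) := Real.sqrt_eq_rpow _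
      _ ≤ V := by
        apply Real.rpow_le_rpow_of_exponent_le hN
        linarith
  have k4 : 1 ≤ V := Real.one_le_rpow hN (by linarith)
  have hC : (0 : ℝ) ≤ C := Nat.cast_nonneg _
  calc 2 * ((N : ℝ) ^ (1 - 1 / (400 * K)) +
      ((N : ℝ) ^ (1 - 1 / (800 * K)) + 2 * (N : ℝ) ^ (19 / 20 : ℝ))) +
      (2 * (C : ℝ) + 1) * ((Nat.sqrt N : ℝ) + 1)
      ≤ 2 * (V + (V + 2 * V)) + (2 * (C : ℝ) + 1) * (V + V) := by gcongr
    _ = (8 + (4 * (C : ℝ) + 2)) * V := by ring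
    _ ≤ (N : ℝ) ^ (1 / (4000 * K)) * V := by gcongr
    _ = (N : ℝ) ^ (1 - 1 / (1000 * K)) := by
      rw [hV, ← Real.rpow_add hN0]
      congr 1
      field_simp
      ring

theorem result (K : ℝ) (hK : 1 ≤ K) (ε : ℝ) (hε : 0 < ε) : ∃ N₀ : ℕ, ∀ N : ℕ, N₀ ≤ N →
      (((Finset.Icc (-(N : ℤ)) N).filter (fun n : ℤ => ∃ n' : ℤ, Squarefree n' ∧ n' % 4 = 1 ∧
        (∃ k : ℤ, k ≠ 0 ∧ n = n' * k ^ 2) ∧
        ∃ x : ℕ, ((N : ℝ) ^ (1 / K) ≤ x ∧ (x : ℝ) ≤ Real.exp ((Real.log N) ^ K)) ∧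
          ε * (Nat.primeCounting x : ℝ) <
            |(P n x : ℝ) - δ n' * (Nat.primeCounting x : ℝ)|)).card : ℝ) ≤
        (N : ℝ) ^ (1 - 1 / (1000 * K)) := by
  have hone : ∀ D : ℤ, D ≠ 0 → ∃ N₀ : ℕ, ∀ N : ℕ, N₀ ≤ N →
      (#(badR (fun N x => (N : ℝ) ^ (1 / K) ≤ x ∧ (x : ℝ) ≤ Real.exp ((Real.log N) ^ K)) D
        (ε / 2) N) : ℝ) ≤ (N : ℝ) ^ (1 - 1 / (400 * K)) +
        ((N : ℝ) ^ (1 - 1 / (800 * K)) + 2 * (N : ℝ) ^ (19 / 20 : ℝ)) := by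
    intro D hD
    obtain ⟨N₁, h1⟩ := lowPow D hD K hK (ε / 2) (by positivity)
    obtain ⟨N₂, h2⟩ := highPow D hD K hK (ε / 2) (by positivity)
    refine ⟨max N₁ N₂, fun N hN => ?_⟩
    have k1 := h1 N ((le_max_left _ _).trans hN)
    have k2 := h2 N ((le_max_right _ _).trans hN)
    have hsub : badR (fun N x => (N : ℝ) ^ (1 / K) ≤ x ∧ (x : ℝ) ≤ Real.exp ((Real.log N) ^ K)) D
        (ε / 2) N ⊆
        badR (fun N x => (N : ℝ) ^ (1 / K) ≤ x ∧ (x : ℝ) ≤ (N : ℝ) ^ (2 : ℝ)) D (ε / 2) N ∪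
        badR (fun N x => (N : ℝ) ^ (2 : ℝ) ≤ x ∧ (x : ℝ) ≤ Real.exp ((Real.log N) ^ K)) D
          (ε / 2) N := by
      intro m hm
      unfold badR at hm
      rw [Finset.mem_filter] at hm
      obtain ⟨hmI, x, ⟨hx1, hx2⟩, hx⟩ := hm
      rw [Finset.mem_union]
      rcases le_total (x : ℝ) ((N : ℝ) ^ (2 : ℝ)) with h | h
      · left
        unfold badR
        rw [Finset.mem_filter]
        exact ⟨hmI, x, ⟨hx1, h⟩, hx⟩
      · right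
        unfold badR
        rw [Finset.mem_filter]
        exact ⟨hmI, x, ⟨h, hx2⟩, hx⟩
    have k3 := (card_le_card hsub).trans (card_union_le _ _)
    have k4 : (#(badR (fun N x => (N : ℝ) ^ (1 / K) ≤ x ∧ (x : ℝ) ≤ Real.exp ((Real.log N) ^ K)) D
        (ε / 2) N) : ℝ) ≤
        (#(badR (fun N x => (N : ℝ) ^ (1 / K) ≤ x ∧ (x : ℝ) ≤ (N : ℝ) ^ (2 : ℝ)) D
          (ε / 2) N) : ℝ) +
        (#(badR (fun N x => (N : ℝ) ^ (2 : ℝ) ≤ x ∧ (x : ℝ) ≤ Real.exp ((Real.log N) ^ K)) D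
          (ε / 2) N) : ℝ) := by exact_mod_cast k3
    linarith
  obtain ⟨N₁, h1⟩ := hone 1 one_ne_zero
  obtain ⟨N₂, h2⟩ := hone (-1) (by norm_num)
  obtain ⟨C, hC⟩ := transfer
    (fun N x => (N : ℝ) ^ (1 / K) ≤ x ∧ (x : ℝ) ≤ Real.exp ((Real.log N) ^ K)) ε hε
  obtain ⟨N₃, h3⟩ := eventually_atTop.1 (ev_fin C K hK)
  refine ⟨max (max N₁ N₂) N₃, fun N hN => ?_⟩
  have k1 := h1 N ((le_max_left _ _).trans ((le_max_left _ _).trans hN))
  have k2 := h2 N ((le_max_right _ _).trans ((le_max_left _ _).trans hN))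
  have k3 := h3 N ((le_max_right _ _).trans hN)
  have k4 := hC N
  have e : ((Finset.Icc (-(N : ℤ)) N).filter (fun n : ℤ => ∃ n' : ℤ, Squarefree n' ∧ n' % 4 = 1 ∧
        (∃ k : ℤ, k ≠ 0 ∧ n = n' * k ^ 2) ∧
        ∃ x : ℕ, ((N : ℝ) ^ (1 / K) ≤ x ∧ (x : ℝ) ≤ Real.exp ((Real.log N) ^ K)) ∧
          ε * (Nat.primeCounting x : ℝ) <
            |(P n x : ℝ) - δ n' * (Nat.primeCounting x : ℝ)|)).card =
      ((Finset.Icc (-(N : ℤ)) N).filter (fun n : ℤ => ∃ n' : ℤ, Squarefree n' ∧ n' % 4 = 1 ∧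
        (∃ k : ℤ, k ≠ 0 ∧ n = n' * k ^ 2) ∧
        ∃ x : ℕ, ((N : ℝ) ^ (1 / K) ≤ x ∧ (x : ℝ) ≤ Real.exp ((Real.log N) ^ K)) ∧
          ε * (Nat.primeCounting x : ℝ) <
            |(Pool.Agent.H730R2.AA.cnt n x : ℝ) -
              Pool.Agent.W171.EP.dl n' * (Nat.primeCounting x : ℝ)|)).card := rfl
  rw [e]
  linarith

end Pool.Agent.Results.MP_991e92_nt.PowerSaving
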