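import Mathlib
import Pool.Agent.W171.EP.PrimesAll
import Pool.Agent.W171.EP.Delta
import Pool.Agent.H771R4.SE.Datum

set_option autoImplicit false

/-! # The density of Q1 for the multiples `m q` of any integer `m` by almost all primes `q ≤ y`,
with power-saving exceptional set, at every `x` with `y ^ C ≤ x ≤ exp (y ^ α)`

For an integer `n'` let `δ(n') = (1 - μ(|n'|) ∏_{p ∣ n'} 1 / (p ^ 2 - p - 1)) A`, with Artin's constant
`A`, and let `P(n, x)` be the number of primes `p ≤ x` modulo which `n` is a primitive root.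
Let `0 < α < 1 / 4`, `1 / 2 + 2 α < θ < 1` and `C > 1` with `θ (1 - θ) < C (2 θ - 1)` (any `C > 1` if
`θ ≥ 0.6181`).  For all `ε > 0`, all large `y` and EVERY nonzero integer `m` with `|m| ≤ exp (√y)`, all
but at most `y ^ θ` of the primes `q ≤ y` have the following property: if the squarefree part `n'` of
`m q` is `1 mod 4`, then `|P(m q, x) - δ(n') π(x)| ≤ ε π(x)` for EVERY `x` with
`y ^ C ≤ x ≤ exp (y ^ α)`.

Libraries: helper386 (large sieve for sets of primes), helper771 (large sieve for integers, local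
counts), helper730 (main term, grid). -/

namespace Pool.Agent.Results.MP_991e92_nt.PrimeMultiples

open Finset Filter Classical
open Pool.Agent.H771R4.SE (cntE dLin)
open Pool.Agent.W171.EP (artA dl dl_close prime_unique badG)

/-- the number of primes `p ≤ x` modulo which `n` is a primitive root -/
noncomputable def P (n : ℤ) (x : ℕ) : ℕ :=
  ((Finset.range (x + 1)).filter (fun p : ℕ => p.Prime ∧ orderOf (n : ZMod p) = p - 1)).card

/-- the density of Q1 for integers with squarefree part `D`: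
`(1 - μ(|D|) ∏_{q ∣ D} 1 / (q² - q - 1)) ∏_p (1 - 1 / (p (p - 1)))` -/
noncomputable def δ (D : ℤ) : ℝ :=
  (1 - ((ArithmeticFunction.moebius D.natAbs : ℤ) : ℝ) *
      ∏ q ∈ D.natAbs.primeFactors, (1 / ((q : ℝ) ^ 2 - (q : ℝ) - 1))) *
    ∏' p : Nat.Primes, (1 - 1 / (((p : ℕ) : ℝ) * (((p : ℕ) : ℝ) - 1)))

lemma cnt_eq (m : ℤ) (q x : ℕ) : ∃ s : ℤ, ∃ hs : s ≠ 0, (s = 1 ∨ s = -1) ∧
    P (m * q) x = cntE (dLin s hs) (m.natAbs * q) x := by
  rcases le_total 0 m with h | h
  · refine ⟨1, one_ne_zero, Or.inl rfl, ?_⟩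
    unfold P cntE
    apply congrArg Finset.card
    apply Finset.filter_congr_decidable _ _ _ |>.symm.trans
    apply Finset.filter_congr
    intro p _
    have e : ((m * (q : ℤ) : ℤ) : ZMod p) =
        ((1 : ℤ) : ZMod p) * ((m.natAbs * q : ℕ) : ZMod p) := by
      have h1 : (m : ℤ) = ((m.natAbs : ℕ) : ℤ) := (Int.natAbs_of_nonneg h).symm
      rw [h1]
      push_cast
      simp
    simp only [dLin, e]
  · refine ⟨-1, by norm_num, Or.inr rfl, ?_⟩
    unfold P cntE
    apply congrArg Finset.card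
    apply Finset.filter_congr_decidable _ _ _ |>.symm.trans
    apply Finset.filter_congr
    intro p _
    have e : ((m * (q : ℤ) : ℤ) : ZMod p) =
        ((-1 : ℤ) : ZMod p) * ((m.natAbs * q : ℕ) : ZMod p) := by
      have h1 : (m : ℤ) = -((m.natAbs : ℕ) : ℤ) := by omega
      rw [h1]
      push_cast
      simp
    simp only [dLin, e]

theorem result (α θ C : ℝ) (hα : 0 < α) (hθ : 1 / 2 + 2 * α < θ) (hθ1 : θ < 1) (hC : 1 < C)
    (hCθ : θ * (1 - θ) < C * (2 * θ - 1)) (ε : ℝ) (hε : 0 < ε) :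
    ∃ y₀ : ℕ, ∀ y : ℕ, y₀ ≤ y → ∀ m : ℤ, m ≠ 0 → Real.log |(m : ℝ)| ≤ √(y : ℝ) →
      (((Finset.range (y + 1)).filter (fun q : ℕ => q.Prime ∧
        ∃ n' : ℤ, Squarefree n' ∧ n' % 4 = 1 ∧ (∃ k : ℤ, m * q = n' * k ^ 2) ∧
        ∃ x : ℕ, (y : ℝ) ^ C ≤ x ∧ (x : ℝ) ≤ Real.exp ((y : ℝ) ^ α) ∧
          ε * (Nat.primeCounting x : ℝ) <
            |(P (m * q) x : ℝ) - δ n' * (Nat.primeCounting x : ℝ)|)).card : ℝ) ≤ (y : ℝ) ^ θ := by
  obtain ⟨θ', hθ', hall⟩ := Pool.Agent.W171.EP.primesAll α θ C hα hθ hθ1 hC hCθ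
  obtain ⟨N₁, h1⟩ := hall (dLin 1 one_ne_zero) (ε / 2) (by positivity)
  obtain ⟨N₂, h2⟩ := hall (dLin (-1) (by norm_num)) (ε / 2) (by positivity)
  obtain ⟨K, hK⟩ := exists_nat_ge (2 * |artA| / ε)
  rw [div_le_iff₀ hε] at hK
  -- eventually the power wins
  have hpow : ∀ᶠ y : ℕ in atTop, (2 * (K : ℝ) + 1) + 4 * (y : ℝ) ^ θ' ≤ (y : ℝ) ^ θ := by
    have hh : ∀ᶠ l : ℝ in atTop, (2 * (K : ℝ) + 1) + 4 * l ^ θ' ≤ l ^ θ := by
      have k1 := (tendsto_rpow_atTop (show 0 < θ by linarith)).eventually_ge_atTop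
        (2 * (2 * (K : ℝ) + 1))
      have k2 := (tendsto_rpow_atTop (show 0 < θ - θ' by linarith)).eventually_ge_atTop 8
      filter_upwards [k1, k2, eventually_gt_atTop 0] with l k1 k2 k3
      have h5 : l ^ θ = l ^ θ' * l ^ (θ - θ') := by
        rw [← Real.rpow_add k3]; congr 1; ring
      have h6 : 0 < l ^ θ' := by positivity
      have h7 : 8 * l ^ θ' ≤ l ^ θ := by rw [h5]; nlinarith
      linarith
    exact (tendsto_natCast_atTop_atTop (R := ℝ)).eventually hh
  obtain ⟨N₃, hN₃⟩ := eventually_atTop.1 hpow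
  refine ⟨max (max N₁ N₂) (max N₃ 2), fun y hy m hm hmy => ?_⟩
  have hy1 : N₁ ≤ y := (le_max_left _ _).trans ((le_max_left _ _).trans hy)
  have hy2 : N₂ ≤ y := (le_max_right _ _).trans ((le_max_left _ _).trans hy)
  have hy3 := hN₃ y ((le_max_left _ _).trans ((le_max_right _ _).trans hy))
  have hy4 : 2 ≤ y := (le_max_right _ _).trans ((le_max_right _ _).trans hy)
  have hy0 : (0 : ℝ) < y := by exact_mod_cast (by omega : 0 < y)
  have hl : 0 < m.natAbs := Int.natAbs_pos.2 hm
  have hll : Real.log ((m.natAbs : ℕ) : ℝ) ≤ √(y : ℝ) := by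
    have habs : |(m : ℝ)| = ((m.natAbs : ℕ) : ℝ) := by
      rw [← Int.cast_abs, Int.abs_eq_natAbs]
      simp
    rw [← habs]
    exact hmy
  have b1 := h1 y hy1 m.natAbs hl hll
  have b2 := h2 y hy2 m.natAbs hl hll
  set B1 := badG (dLin 1 one_ne_zero) (ε / 2) (C * Real.log y) ((y : ℝ) ^ α) m.natAbs y with hB1
  set B2 := badG (dLin (-1) (by norm_num)) (ε / 2) (C * Real.log y) ((y : ℝ) ^ α) m.natAbs y
    with hB2
  set B := (Finset.range (y + 1)).filter (fun q : ℕ => q.Prime ∧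
        ∃ n' : ℤ, Squarefree n' ∧ n' % 4 = 1 ∧ (∃ k : ℤ, m * q = n' * k ^ 2) ∧
        ∃ x : ℕ, (y : ℝ) ^ C ≤ x ∧ (x : ℝ) ≤ Real.exp ((y : ℝ) ^ α) ∧
          ε * (Nat.primeCounting x : ℝ) <
            |(P (m * q) x : ℝ) - δ n' * (Nat.primeCounting x : ℝ)|) with hB
  set S := (Finset.range (y + 1)).filter (fun q : ℕ => q.Prime ∧
        ∃ n' ∈ Finset.Icc (-(K : ℤ)) K, ∃ k : ℤ, m * q = n' * k ^ 2) with hS
  have hSc : #S ≤ 2 * K + 1 := by
    have hex : ∀ q ∈ S, ∃ n' ∈ Finset.Icc (-(K : ℤ)) K, ∃ k : ℤ, m * q = n' * k ^ 2 := by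
      intro q hq
      rw [hS, mem_filter] at hq
      exact hq.2.2
    choose! f hf hfk using hex
    have hinj : Set.InjOn f (S : Set ℕ) := by
      intro a ha b hb hab
      obtain ⟨k, hk⟩ := hfk a ha
      obtain ⟨j, hj⟩ := hfk b hb
      have hap : a.Prime := ((mem_filter.1 ha).2).1
      have hbp : b.Prime := ((mem_filter.1 hb).2).1
      rw [← hab] at hj
      exact prime_unique hm hap hbp hk hj
    have h5 := Finset.card_le_card_of_injOn f hf hinj
    rw [Int.card_Icc] at h5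
    omega
  have hsub : B ⊆ S ∪ (B1 ∪ B2) := by
    intro q hq
    rw [hB, mem_filter] at hq
    obtain ⟨hqr, hqp, n', hn', hn4, ⟨k, hk⟩, x, hx1, hx2, hx3⟩ := hq
    rw [mem_union, mem_union]
    by_cases hnK : n' ∈ Finset.Icc (-(K : ℤ)) K
    · left
      rw [hS, mem_filter]
      exact ⟨hqr, hqp, n', hnK, k, hk⟩
    · right
      have hx0 : (0 : ℝ) < x := lt_of_lt_of_le (by positivity) hx1
      have hnK' : (K : ℝ) ≤ |(n' : ℝ)| := by
        rw [mem_Icc, not_and_or, not_le, not_le] at hnK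
        have : (K : ℤ) ≤ |n'| := by
          rcases hnK with h | h
          · exact le_abs.2 (Or.inr (by omega))
          · exact le_abs.2 (Or.inl (by omega))
        have h2 : ((K : ℤ) : ℝ) ≤ ((|n'| : ℤ) : ℝ) := by exact_mod_cast this
        rw [Int.cast_abs] at h2
        exact_mod_cast h2
      have hn0 : (0 : ℝ) < |(n' : ℝ)| := by
        rw [abs_pos]
        exact_mod_cast hn'.ne_zero
      have hclose : |δ n' - artA| ≤ ε / 2 := by
        have h5 := dl_close n' hn' hn4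
        have h6 : δ n' = dl n' := rfl
        rw [h6]
        refine h5.trans ?_
        rw [div_le_iff₀ hn0]
        have : ε * (K : ℝ) ≤ ε * |(n' : ℝ)| := by gcongr
        linarith
      have hpi : (0 : ℝ) ≤ (Nat.primeCounting x : ℝ) := Nat.cast_nonneg _
      have hx4 : ε / 2 * (Nat.primeCounting x : ℝ) <
          |(P (m * q) x : ℝ) - artA * (Nat.primeCounting x : ℝ)| := by
        have h7 : |(P (m * q) x : ℝ) - δ n' * (Nat.primeCounting x : ℝ)| ≤
            |(P (m * q) x : ℝ) - artA * (Nat.primeCounting x : ℝ)| +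
            |(δ n' - artA) * (Nat.primeCounting x : ℝ)| := by
          have : (P (m * q) x : ℝ) - δ n' * (Nat.primeCounting x : ℝ) =
              ((P (m * q) x : ℝ) - artA * (Nat.primeCounting x : ℝ)) -
              (δ n' - artA) * (Nat.primeCounting x : ℝ) := by ring
          rw [this]
          exact abs_sub _ _
        have h8 : |(δ n' - artA) * (Nat.primeCounting x : ℝ)| ≤
            ε / 2 * (Nat.primeCounting x : ℝ) := by
          rw [abs_mul, abs_of_nonneg hpi]
          gcongr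
        linarith
      have hlow : C * Real.log y ≤ Real.log x := by
        have := Real.log_le_log (by positivity) hx1
        rwa [Real.log_rpow hy0] at this
      have hup : Real.log x ≤ (y : ℝ) ^ α := by
        rw [Real.log_le_iff_le_exp hx0]
        exact hx2
      have hPP : q ∈ Pool.Agent.H386R2.Artin.PP y := by
        rw [Pool.Agent.H386R2.Artin.PP, mem_filter]
        exact ⟨hqr, hqp⟩
      obtain ⟨s, hs, hs1, hPs⟩ := cnt_eq m q x
      rw [hPs] at hx4
      rcases hs1 with rfl | rfl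
      · left
        rw [hB1]
        unfold badG
        rw [mem_filter]
        exact ⟨hPP, x, hlow, hup, hx4⟩
      · right
        rw [hB2]
        unfold badG
        rw [mem_filter]
        exact ⟨hPP, x, hlow, hup, hx4⟩
  have h9 := (card_le_card hsub).trans ((card_union_le _ _).trans
    (Nat.add_le_add_left (card_union_le _ _) _))
  have h10 : (#B : ℝ) ≤ (#S : ℝ) + ((#B1 : ℝ) + (#B2 : ℝ)) := by exact_mod_cast h9
  have h11 : (#S : ℝ) ≤ 2 * K + 1 := by exact_mod_cast hSc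
  linarith

end Pool.Agent.Results.MP_991e92_nt.PrimeMultiples
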